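import Pool.Agent.H59.R1.Defs

/-!
# CX1: a positive proportion, independent of `T`, of the family is of type `T12` at `X`
-/

set_option autoImplicit false

namespace Pool.RKO

open Polynomial Matrix Pool.AVR Pool.AVS Pool.RZ Pool.PRL

open Classical in
/-- A density of a set of triples is at most one. -/
theorem cx_le_one {F : Type} [Field F] [Finite F] (S : Set (F × F × F)) :
    ((S.ncard : ℝ)) / (Nat.card F : ℝ) ^ 3 ≤ 1 := by
  have hq : 0 < Nat.card F := Nat.card_pos
  have h1 : S.ncard ≤ Nat.card (F × F × F) := by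
    rw [← Set.ncard_univ]
    exact Set.ncard_le_ncard (Set.subset_univ _) Set.finite_univ
  have h2 : Nat.card (F × F × F) = Nat.card F ^ 3 := by
    rw [Nat.card_prod, Nat.card_prod]; ring
  rw [h2] at h1
  have hq' : (0 : ℝ) < (Nat.card F : ℝ) ^ 3 := by positivity
  rw [div_le_one hq']
  exact_mod_cast h1

theorem cx_finite (F : Type) [Field F] [Finite F] (D : ℕ) :
    {P : F[X] | P.natDegree ≤ D}.Finite := by
  have h1 : ((Polynomial.degreeLT F (D + 1) : Submodule F F[X]) : Set F[X]).Finite := by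
    have : Finite (Polynomial.degreeLT F (D + 1)) := Module.finite_of_finite F
    exact Set.toFinite _
  refine h1.subset ?_
  intro P hP
  simp only [Set.mem_ofPred_eq] at hP
  rw [SetLike.mem_coe, Polynomial.mem_degreeLT]
  calc P.degree ≤ (P.natDegree : WithBot ℕ) := Polynomial.degree_le_natDegree
    _ < ((D + 1 : ℕ) : WithBot ℕ) := by exact_mod_cast Nat.lt_succ_of_le hP

open Classical in
theorem cx1 (hD : DN1Stmt) (hU : UB1Stmt) (hP : PR2Stmt) : CX1Stmt := by
  intro F _ _ h2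
  obtain ⟨c1, hc1, hc⟩ := hP F h2
  have hq2 : (2 : ℝ) ≤ (Nat.card F : ℝ) := by
    have : 1 < Nat.card F := Finite.one_lt_card
    exact_mod_cast this
  have hd3 : d3 F ≤ 1 := cx_le_one _
  have hd3' : 0 ≤ d3 F := by unfold d3; positivity
  have hd12 : d12 F ≤ 1 := cx_le_one _
  have hd12' : 0 ≤ d12 F := by unfold d12; positivity
  have hd3p : 0 < d3 F := by
    have h := hc ∅ (by simp)
    unfold Pool.RZ.dd at h
    rcases hd3'.lt_or_eq with h0 | h0
    · exact h0
    · rw [← h0] at h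
      simp at h
      linarith
  set r : ℝ := ((Nat.card F : ℝ) - 1) / (2 * (Nat.card F : ℝ)) with hr
  have hrp : 0 < r := by rw [hr]; apply div_pos <;> linarith
  refine ⟨r * c1 / 2, by positivity, ?_⟩
  intro T hT
  have hXT : (X : F[X]) ∉ T := by
    intro h
    have h1 := (hT _ h).2.2
    rw [natDegree_X] at h1
    exact absurd h1 (by decide)
  have hM : MoT T := fun P h => ⟨(hT P h).1, (hT P h).2.1⟩
  have hM' : MoT (insert X T) := by
    intro P h
    rcases Finset.mem_insert.1 h with h | h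
    · subst h; exact ⟨monic_X, irreducible_X⟩
    · exact hM P h
  have hD0 : 0 < ddT F T ∅ := by
    unfold ddT
    rw [Finset.prod_empty, mul_one]
    refine mul_pos hd3p (Finset.prod_pos fun P h => ?_)
    have h1 : 0 < P.natDegree := (hT P h).2.1.natDegree_pos
    have h3 : (1 : ℝ) < (Nat.card F : ℝ) ^ P.natDegree :=
      one_lt_pow₀ (by linarith) (by omega)
    apply div_pos <;> linarith
  obtain ⟨D, hDD⟩ := hD F h2 (insert X T) hM' (ddT F T ∅ * r * c1 / 2) (by positivity)
  obtain ⟨N1, hN1⟩ := hU F h2 T hM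
  set S : Finset F[X] := ((cx_finite F D).toFinset.filter
    fun P => P.Monic ∧ Irreducible P ∧ P ∉ insert X T) with hS
  have hSm : ∀ P ∈ S, P.Monic ∧ Irreducible P ∧ P ∉ insert X T := fun P h =>
    (Finset.mem_filter.1 h).2
  obtain ⟨N2, hN2⟩ := hDD S hSm (fun P h1 h3 h4 h5 => by
    rw [hS, Finset.mem_filter, Set.Finite.mem_toFinset]
    exact ⟨h4, h1, h3, h5⟩)
  refine ⟨max N1 N2, fun n hn => ?_⟩
  obtain ⟨hfin, hub⟩ := hN1 n (le_trans (le_max_left _ _) hn)
  obtain ⟨-, hlb⟩ := hN2 n (le_trans (le_max_right _ _) hn)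
  refine ⟨hfin, ?_⟩
  have hpr : c1 ≤ ∏ P ∈ S, dens (AdjoinRoot (P ^ 2)) := by
    have h := hc S (fun P hP => ⟨(hSm P hP).1, (hSm P hP).2.1⟩)
    unfold Pool.RZ.dd at h
    have h5 : d3 F * d12 F ^ 2 ≤ 1 := by nlinarith [mul_nonneg hd3' hd12', mul_nonneg hd12' hd12']
    have h6 : 0 ≤ d3 F * d12 F ^ 2 := by positivity
    by_contra h7
    push Not at h7
    rcases le_or_gt 0 (∏ P ∈ S, dens (AdjoinRoot (P ^ 2))) with h8 | h8
    · nlinarith
    · nlinarith
  have hdd : ddT F (insert X T) S = ddT F T ∅ * r * ∏ P ∈ S, dens (AdjoinRoot (P ^ 2)) := by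
    unfold ddT
    rw [Finset.prod_insert hXT, Finset.prod_empty, natDegree_X, pow_one, hr]
    ring
  rw [hdd] at hlb
  have hQ : (0 : ℝ) < (Nat.card F : ℝ) ^ (12 * n + 3) := by positivity
  have hDr : 0 < ddT F T ∅ * r := by positivity
  calc r * c1 / 2 * ((FmT F n T).ncard : ℝ)
      ≤ r * c1 / 2 * ((Nat.card F : ℝ) ^ (12 * n + 3) * ddT F T ∅) :=
        mul_le_mul_of_nonneg_left hub (by positivity)
    _ = (Nat.card F : ℝ) ^ (12 * n + 3) * (ddT F T ∅ * r * c1 - ddT F T ∅ * r * c1 / 2) := by ring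
    _ ≤ (Nat.card F : ℝ) ^ (12 * n + 3) * (ddT F T ∅ * r *
          (∏ P ∈ S, dens (AdjoinRoot (P ^ 2))) - ddT F T ∅ * r * c1 / 2) := by
        refine mul_le_mul_of_nonneg_left ?_ hQ.le
        have := mul_le_mul_of_nonneg_left hpr hDr.le
        linarith
    _ ≤ ((FmT F n (insert X T)).ncard : ℝ) := hlb

end Pool.RKO
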